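import Pool.Agent.TriSup.Poly
import Pool.Agent.TriSup.UpperPow

/-!
# MP_39a5c3_co: the multicolour Ramsey number of the triangle grows superexponentially

`r(3; q) ≥ (√q / (log q)^9)^q` for all large `q`.  Together with the classical upper bound
`r(3; q) ≤ 3 q!` this gives `log r(3; q) = Θ(q log q)`.
-/

namespace Pool.Agent.Results.MP_39a5c3_co.SuperExponential

open Filter Asymptotics Pool.Agent.TriGrow Pool.Agent.TriSup

/-- From the polylogarithmic form to the form with `ε`. -/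
lemma eps_form (ε : ℝ) (hε : 0 < ε) :
    ∀ᶠ q : ℕ in atTop, (q : ℝ) ^ ((1 / 2 - ε) * q) ≤ (r3 q : ℝ) := by
  have h1 : (fun x : ℝ => Real.log x ^ (9 : ℝ)) =o[atTop] (fun x : ℝ => x ^ ε) :=
    isLittleO_log_rpow_rpow_atTop 9 hε
  have h2 := (h1.comp_tendsto (tendsto_natCast_atTop_atTop (R := ℝ))).bound
    (c := 1) (by norm_num)
  filter_upwards [h2, growth_poly, eventually_ge_atTop 3] with q h3 h4 hq
  refine le_trans ?_ h4
  have hq0 : (0 : ℝ) < q := by positivity
  have hq3 : (3 : ℝ) ≤ q := by exact_mod_cast hq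
  have hL : 0 < Real.log (q : ℝ) := Real.log_pos (by linarith)
  simp only [Function.comp_apply, Real.norm_eq_abs, one_mul] at h3
  rw [abs_of_nonneg (by positivity), abs_of_nonneg (by positivity)] at h3
  have h5 : Real.log (q : ℝ) ^ (9 : ℝ) = Real.log (q : ℝ) ^ 9 := by
    rw [← Real.rpow_natCast]
    norm_num
  rw [h5] at h3
  have h6 : (q : ℝ) ^ (1 / 2 - ε) ≤ √(q : ℝ) / Real.log (q : ℝ) ^ 9 := by
    rw [Real.rpow_sub hq0, ← Real.sqrt_eq_rpow]
    exact div_le_div_of_nonneg_left (Real.sqrt_nonneg _) (by positivity) h3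
  calc (q : ℝ) ^ ((1 / 2 - ε) * q) = ((q : ℝ) ^ (1 / 2 - ε)) ^ q := by
        rw [Real.rpow_mul hq0.le, Real.rpow_natCast]
    _ ≤ (√(q : ℝ) / Real.log (q : ℝ) ^ 9) ^ q := pow_le_pow_left₀ (by positivity) h6 _

/-- The upper bound for the logarithm. -/
lemma log_le (q : ℕ) (hq : 3 ≤ q) : Real.log (r3 q) ≤ q * Real.log q := by
  have h1 := r3_le_pow q hq
  have h2 : 0 < r3 q := by
    rcases Nat.eq_zero_or_pos (r3 q) with h | h
    · exfalso
      have hF := forces_r3 q
      rw [h] at hF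
      obtain ⟨x, -⟩ := hF (fun _ => ⟨0, by omega⟩)
      exact x.elim0
    · exact h
  rw [← Real.log_pow]
  exact Real.log_le_log (by exact_mod_cast h2) (by exact_mod_cast h1)

/-- The lower bound for the logarithm. -/
lemma le_log (ε : ℝ) (hε : 0 < ε) :
    ∀ᶠ q : ℕ in atTop, (1 / 2 - ε) * (q * Real.log q) ≤ Real.log (r3 q) := by
  filter_upwards [eps_form ε hε, eventually_ge_atTop 3] with q h1 hq
  have hq0 : (0 : ℝ) < q := by positivity
  have h2 := Real.log_le_log (by positivity) h1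
  rw [Real.log_rpow hq0] at h2
  linarith

/-- The growth of the multicolour Ramsey number of the triangle. -/
theorem result :
    -- the lower bound
    (∀ᶠ q : ℕ in atTop, (√(q : ℝ) / (Real.log q) ^ 9) ^ q ≤ (r3 q : ℝ)) ∧
    -- the same with `ε`
    (∀ ε : ℝ, 0 < ε → ∀ᶠ q : ℕ in atTop, (q : ℝ) ^ ((1 / 2 - ε) * q) ≤ (r3 q : ℝ)) ∧
    -- the classical upper bound
    (∀ q : ℕ, 1 ≤ q → r3 q ≤ 3 * q.factorial) ∧
    -- the order of growth of the logarithm
    ((fun q : ℕ => Real.log (r3 q)) =Θ[atTop] (fun q : ℕ => (q : ℝ) * Real.log q)) ∧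
    -- the growth is superexponential
    Tendsto (fun q : ℕ => (r3 q : ℝ) ^ (1 / (q : ℝ))) atTop atTop := by
  refine ⟨growth_poly, eps_form, r3_le, ⟨?_, ?_⟩, ?_⟩
  · refine IsBigO.of_bound 1 ?_
    filter_upwards [le_log (1 / 4) (by norm_num), eventually_ge_atTop 3] with q h1 hq
    have hq3 : (3 : ℝ) ≤ q := by exact_mod_cast hq
    have hL : 0 < Real.log (q : ℝ) := Real.log_pos (by linarith)
    have h2 : (0 : ℝ) ≤ q * Real.log q := by positivity
    rw [Real.norm_of_nonneg (by linarith), Real.norm_of_nonneg h2, one_mul]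
    exact log_le q hq
  · refine IsBigO.of_bound 4 ?_
    filter_upwards [le_log (1 / 4) (by norm_num), eventually_ge_atTop 3] with q h1 hq
    have hq3 : (3 : ℝ) ≤ q := by exact_mod_cast hq
    have hL : 0 < Real.log (q : ℝ) := Real.log_pos (by linarith)
    have h2 : (0 : ℝ) ≤ q * Real.log q := by positivity
    rw [Real.norm_of_nonneg h2, Real.norm_of_nonneg (by linarith)]
    linarith
  · have h0 : Tendsto (fun q : ℕ => (q : ℝ) ^ (1 / 4 : ℝ)) atTop atTop :=
      (tendsto_rpow_atTop (by norm_num)).comp tendsto_natCast_atTop_atTop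
    refine tendsto_atTop_mono' _ ?_ h0
    filter_upwards [eps_form (1 / 4) (by norm_num), eventually_ge_atTop 3] with q h1 hq
    have hq0 : (0 : ℝ) < q := by positivity
    calc (q : ℝ) ^ (1 / 4 : ℝ) = ((q : ℝ) ^ ((1 / 2 - 1 / 4) * (q : ℝ))) ^ (1 / (q : ℝ)) := by
          rw [← Real.rpow_mul hq0.le]
          congr 1
          field_simp
          norm_num
      _ ≤ (r3 q : ℝ) ^ (1 / (q : ℝ)) :=
          Real.rpow_le_rpow (by positivity) h1 (by positivity)

end Pool.Agent.Results.MP_39a5c3_co.SuperExponential
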